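import Mathlib
import Pool.Agent.TH764.OG.Norm3

/-!
# Property (P) for arbitrarily large ordinals `α < κ⁺`
-/

set_option autoImplicit false

namespace Pool.Agent.Results.MP_95a8e7_lc.ArbitrarilyLarge

open Cardinal Ordinal

/-- Property (P) of the ordinal `α`: every graph on `α` (realised as the well-ordered type
`α.ToType` of order type `α`) has an infinite path (an injective sequence of vertices, consecutive
ones adjacent) or an independent set of order type `α`. -/
def PropP (α : Ordinal.{0}) : Prop :=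
  ∀ G : SimpleGraph α.ToType,
    (∃ v : ℕ → α.ToType, Function.Injective v ∧ ∀ n, G.Adj (v n) (v (n + 1))) ∨
    ∃ S : Set α.ToType, G.IsIndepSet S ∧ typeLT S = α

/-- Let `κ` be a regular cardinal with `κ ^ ℵ₁ = κ`. Beyond every `β < κ⁺` there is an exponent
`ν < κ⁺` such that all ordinals `κ ^ (ν + η) * q` with `η < ω₁ + 2` and `0 < q < κ` (ordinal
arithmetic) have property (P). -/
theorem result (κ : Cardinal.{0}) (hκ : κ.IsRegular) (hpow : κ ^ (ℵ₁ : Cardinal.{0}) = κ)
    (β : Ordinal.{0}) (hβ : β < (Order.succ κ).ord) :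
    ∃ ν : Ordinal.{0}, β < ν ∧ ν < (Order.succ κ).ord ∧
      ∀ η < ω_ 1 + 2, ∀ q, 0 < q → q < κ.ord → PropP (κ.ord ^ (ν + η) * q) := by
  obtain ⟨ν, h1, h2, h3⟩ := TH764.OG.main_norm hκ hpow hβ
  refine ⟨ν, h1, h2, fun η hη q hq0 hq G => ?_⟩
  rw [← Cardinal.ord_aleph] at hη
  exact (h3 η hη q hq0 hq G).symm

end Pool.Agent.Results.MP_95a8e7_lc.ArbitrarilyLarge
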