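import Mathlib
import Pool.Agent.TH764.OG.Cohen

/-!
# A counterexample to property (P) covers the Cantor cube by few nowhere dense sets

If some graph on the limit ordinal `α` has neither an infinite path nor an independent set of order
type `α`, then the Cantor cube `{0,1}^α` is the union of `|α|` nowhere dense sets.
-/

set_option autoImplicit false

namespace Pool.Agent.Results.MP_95a8e7_lc.CohenCovering

open Cardinal Ordinal

/-- Property (P) of the ordinal `α`: every graph on `α` (realised as the well-ordered type
`α.ToType` of order type `α`) has an infinite path (an injective sequence of vertices, consecutive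
ones adjacent) or an independent set of order type `α`. -/
def PropP (α : Ordinal.{0}) : Prop :=
  ∀ G : SimpleGraph α.ToType,
    (∃ v : ℕ → α.ToType, Function.Injective v ∧ ∀ n, G.Adj (v n) (v (n + 1))) ∨
    ∃ S : Set α.ToType, G.IsIndepSet S ∧ typeLT S = α

/-- If every family of at most `|α|` dense open subsets of the Cantor cube `{0,1}^α` (product
topology) has a common point, then the limit ordinal `α` has property (P). -/
theorem aux (α : Ordinal.{0}) (hα : Order.IsSuccLimit α)
    (hcov : ∀ (ι : Type) (U : ι → Set (α.ToType → Bool)), #ι ≤ α.card → (∀ i, IsOpen (U i)) →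
      (∀ i, Dense (U i)) → (⋂ i, U i).Nonempty) : PropP α := by
  intro G
  by_cases hpath : ∃ v : ℕ → α.ToType, Function.Injective v ∧ ∀ n, G.Adj (v n) (v (n + 1))
  · exact Or.inl hpath
  right
  have hα0 : α ≠ 0 := fun h => by
    rw [h] at hα
    exact hα.ne_bot rfl
  have : Nonempty α.ToType := by
    rw [← Cardinal.mk_ne_zero_iff, Cardinal.mk_toType]
    exact fun h => hα0 (Ordinal.card_eq_zero.1 h)
  obtain ⟨pred, hT, hG⟩ := TH764.OG.exists_treeOrd G (by
    intro v hv hadj
    exact hpath ⟨v, hv, hadj⟩)
  classical
  obtain ⟨x₀⟩ : Nonempty α.ToType := inferInstance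
  have hP := TH764.OG.pp_limit hT α (Or.inr hα)
    (fun ξ => if h : ξ < α then ToType.mk (⟨ξ, h⟩ : Set.Iio α) else x₀) (by
      intro a ha b hb hab
      have ha' : a < α := ha
      have hb' : b < α := hb
      simp only [dif_pos ha', dif_pos hb']
      rw [OrderIso.lt_iff_lt]
      exact hab)
  have hgen : TH764.OG.Gen α.ToType ℵ₀ #α.ToType :=
    TH764.OG.gen_of_cover (by rw [Cardinal.mk_toType]; exact hcov)
  obtain ⟨A, hA, htype⟩ := TH764.OG.exists_indep le_rfl hgen pred
    (fun R hR => Cardinal.lt_aleph0_iff_finite.2 hR.to_subtype) _ hP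
  refine ⟨A, ?_, htype⟩
  intro x hx y hy _ hxy
  rcases hG x y hxy with h | h
  · exact hA x hx y hy h
  · exact hA y hy x hx h

/-- If a limit ordinal `α` does not have property (P), then the Cantor cube `{0,1}^α` (product
topology) is the union of a family of nowhere dense sets indexed by `α`. -/
theorem result (α : Ordinal.{0}) (hα : Order.IsSuccLimit α) (hP : ¬ PropP α) :
    ∃ N : α.ToType → Set (α.ToType → Bool), (∀ i, IsNowhereDense (N i)) ∧
      ⋃ i, N i = Set.univ := by
  classical
  by_contra hcon
  push Not at hcon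
  refine hP (aux α hα ?_)
  intro ι U hι ho hd
  by_contra hne
  rw [← Cardinal.mk_toType α] at hι
  obtain ⟨e⟩ := (Cardinal.le_def _ _).1 hι
  refine hcon (fun i => if h : ∃ j, e j = i then (U h.choose)ᶜ else ∅) ?_ ?_
  · intro i
    by_cases h : ∃ j, e j = i
    · simp only [dif_pos h]
      exact (isClosed_isNowhereDense_iff_compl.2
        (by rw [compl_compl]; exact ⟨ho _, hd _⟩)).2
    · simp only [dif_neg h]
      exact isNowhereDense_empty
  · rw [Set.eq_univ_iff_forall]
    intro c
    have hc : c ∉ ⋂ i, U i := fun h => hne ⟨c, h⟩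
    rw [Set.mem_iInter] at hc
    push Not at hc
    obtain ⟨j, hj⟩ := hc
    refine Set.mem_iUnion.2 ⟨e j, ?_⟩
    have h : ∃ k, e k = e j := ⟨j, rfl⟩
    simp only [dif_pos h]
    have h2 : h.choose = j := e.injective h.choose_spec
    rw [h2]
    exact hj

end Pool.Agent.Results.MP_95a8e7_lc.CohenCovering
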