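import Mathlib
import Pool.Agent.TH764.OG.Exact2

/-!
# Failures of property (P) for arbitrarily large `α < ω₃`, under `2 ^ ℵ₁ = ℵ₂`
-/

set_option autoImplicit false

namespace Pool.Agent.Results.MP_95a8e7_lc.FailureExponents

open Cardinal Ordinal

/-- Property (P) of the ordinal `α`: every graph on `α` (realised as the well-ordered type
`α.ToType` of order type `α`) has an infinite path (an injective sequence of vertices, consecutive
ones adjacent) or an independent set of order type `α`. -/
def PropP (α : Ordinal.{0}) : Prop :=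
  ∀ G : SimpleGraph α.ToType,
    (∃ v : ℕ → α.ToType, Function.Injective v ∧ ∀ n, G.Adj (v n) (v (n + 1))) ∨
    ∃ S : Set α.ToType, G.IsIndepSet S ∧ typeLT S = α

/-- Assume `2 ^ ℵ₁ = ℵ₂` and let `α < ω₃` be a limit ordinal. If the Cantor normal form of `α` has a
term `ω ^ γ` such that the logarithm of `ω ^ γ` to base `ω₂` leaves a remainder of at least
`ω₁ + 2` on division by `ω₂`, then `α` does not have property (P). -/
theorem result (h : (2 : Cardinal.{0}) ^ (ℵ₁ : Cardinal.{0}) = ℵ_ 2) (α : Ordinal.{0})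
    (hα : Order.IsSuccLimit α) (hlt : α < ω_ 3)
    (hγ : ∃ γ ∈ (CNF ω α).map Prod.fst, ω_ 1 + 2 ≤ log (ω_ 2) (ω ^ γ) % ω_ 2) :
    ¬ PropP α := by
  obtain ⟨γ, hγ1, hγ2⟩ := hγ
  exact fun hP => TH764.OG.not_rel_exponent h hα hlt hγ1 hγ2 (fun G => (hP G).symm)

end Pool.Agent.Results.MP_95a8e7_lc.FailureExponents
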